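import Pool.Agent.R580.Orb.Desc

/-!
# The noncommutative Chow motive of a smooth projective variety is Kimura-finite if and only if its
# Chow motive is

`D` is a `ℚ`-linear pseudo-abelian rigid symmetric tensor category with `End(𝟙) = ℚ`, and `R` is a
symmetric monoidal additive functor from `D` to finite dimensional super vector spaces over a field
`K`. The example for the problem is `D = NChow(k)_ℚ`, with periodic cyclic homology in
characteristic zero and topological periodic cyclic homology with `p` inverted in characteristic `p`
(after base change to the perfect closure if necessary).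

`C` is a `ℚ`-linear symmetric tensor category and `π : C ⥤ D` is a faithful `ℚ`-linear symmetric
monoidal functor. The example is the category of Chow motives `C = Chow(k)_ℚ` and the functor with
`π h(X) = U(perf_dg(X))_ℚ`. For `M = h(X)`, `X` smooth and projective of dimension `d`, the functor
`π` identifies the endomorphisms of `U(perf_dg(X))_ℚ` with all of `CH^*(X × X)_ℚ` (Grothendieck,
Riemann, Roch), and the endomorphisms of `h(X)` are those of degree zero, where
`A i = CH^(d + i) (X × X)_ℚ`. The formal properties of these degrees which are used are in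
`IsGrading`: degrees are additive for the composition, bounded, and the trace (the degree of the
intersection with the diagonal) is zero if `i ≠ 0`. No other property of `C`, `π` and `A` is used.

Theorem.
1. The following are equivalent: `M` is finite-dimensional in the sense of Kimura; the
   noncommutative motive `π M` is; `π M` is a direct summand of some Kimura-finite object of `D`.
2. If the realisation of `π M` is not zero then this is also equivalent to: for some object `N` with
   non zero realisation, `π M ⊗ N` is a direct summand of a Kimura-finite object of `D`.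
3. Each decomposition of `π M` into an even and an odd summand is isomorphic to the image of such a
   decomposition of `M`.

It is known that `U(perf_dg(X))_ℚ` is Kimura-finite if `h(X)` is. The theorem contains the converse.
The difficulty is that the even summand of `U(perf_dg(X))_ℚ` is given by an idempotent of
`CH^*(X × X)_ℚ` which is not homogeneous in general, and that the sign conjecture is not known for
`X`.

Idea of the proof. Let `p = ∑ p_i` be the even projector. An endomorphism `f` of degree `j ≠ 0` is
nilpotent, so its ordinary trace and its super trace on the realisation are both zero, and so is the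
trace of `p ∘ f`. Since the trace vanishes in non zero degrees, this shows that the `p_i`, `i ≠ 0`,
are numerically trivial. So `p_0` is idempotent modulo numerically trivial endomorphisms of `π M`,
which are nilpotent (Kimura). Since `π` is faithful, `p_0` can be modified to an idempotent of `M`
which is conjugate to `p` in `D`; and powers of a summand vanish in `C` if they vanish in `D`.
-/

set_option autoImplicit false

open CategoryTheory Limits MonoidalCategory

namespace Pool.Agent.Results.MP_6e5bed_ag.OrbitDescent

open Pool.Agent.Y112.SR Pool.Agent.Y112.KD Pool.Agent.R905 Pool.Agent.R580.Orb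

universe v₁ u₁ v₂ u₂ w

theorem result {C : Type u₁} [Category.{v₁} C] [Preadditive C] [Linear ℚ C] [MonoidalCategory C]
    [MonoidalPreadditive C] [MonoidalLinear ℚ C] [SymmetricCategory C]
    {D : Type u₂} [Category.{v₂} D] [Preadditive D] [Linear ℚ D] [MonoidalCategory D]
    [MonoidalPreadditive D] [MonoidalLinear ℚ D] [SymmetricCategory D] [RightRigidCategory D]
    [IsIdempotentComplete D] (hU : UnitQ D) {K : Type w} [Field K] (R : SuperRealisation D K)
    (π : C ⥤ D) [π.Braided] [π.Additive] [π.Linear ℚ] [π.Faithful] (M : C)
    (A : ℤ → Submodule ℚ (π.obj M ⟶ π.obj M)) (hA : IsGrading A)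
    (h0 : ∀ f, f ∈ A 0 ↔ ∃ g : M ⟶ M, π.map g = f) :
    [IsKimuraFinite M, IsKimuraFinite (π.obj M),
      ∃ (P : D) (i : π.obj M ⟶ P) (r : P ⟶ π.obj M), IsKimuraFinite P ∧ i ≫ r = 𝟙 _].TFAE ∧
    (¬ IsZero (R.H.obj (π.obj M)) → (IsKimuraFinite M ↔
      ∃ (N P : D) (i : π.obj M ⊗ N ⟶ P) (r : P ⟶ π.obj M ⊗ N), ¬ IsZero (R.H.obj N) ∧
        IsKimuraFinite P ∧ i ≫ r = 𝟙 _)) ∧
    (∀ p : π.obj M ⟶ π.obj M, p ≫ p = p → (∃ n, PowerVanishes (-1) p n) →
      (∃ n, PowerVanishes 1 (𝟙 (π.obj M) - p) n) →
      ∃ (e : M ⟶ M) (u : π.obj M ≅ π.obj M), e ≫ e = e ∧ (∃ n, PowerVanishes (-1) e n) ∧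
        (∃ n, PowerVanishes 1 (𝟙 M - e) n) ∧ u.hom ≫ p = π.map e ≫ u.hom) := by
  have h0' : ∀ f ∈ A 0, ∃ g : M ⟶ M, π.map g = f := fun f hf => (h0 f).1 hf
  refine ⟨?_, ?_, fun p hp hev hod => exists_descent R π hU hA h0' p hp hev hod⟩
  · tfae_have 1 → 2 := fun h => isKimuraFinite_map π h
    tfae_have 2 → 3 := fun h => ⟨π.obj M, 𝟙 _, 𝟙 _, h, Category.id_comp _⟩
    tfae_have 3 → 1 := by
      rintro ⟨P, i, r, hP, hir⟩
      exact isKimuraFinite_of_map R π hU hA h0' (hP.retract R hU i r hir)
    tfae_finish
  · intro hM
    constructor
    · intro h
      refine ⟨𝟙_ D, π.obj M, (ρ_ _).hom, (ρ_ _).inv, unit_ne R, isKimuraFinite_map π h, ?_⟩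
      exact (ρ_ _).hom_inv_id
    · rintro ⟨N, P, i, r, hN, hP, hir⟩
      exact isKimuraFinite_of_map R π hU hA h0'
        (isKimuraFinite_left R hU hM hN (hP.retract R hU i r hir))

end Pool.Agent.Results.MP_6e5bed_ag.OrbitDescent
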