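import Pool.Agent.R936.Nck.Main
import Pool.Agent.R911.Cv.TMain

/-!
# MP_6e5bed_ag: Kimura-finiteness of noncommutative motives, the sign conjecture and conservativity

`C` is a `ℚ`-linear pseudo-abelian rigid symmetric tensor category with `End(𝟙) = ℚ`, and `R` is a symmetric monoidal
additive functor from `C` to finite dimensional super vector spaces over a field `K` (`SuperRealisation`). The example
for the problem is the category `NChow(k)_ℚ` of noncommutative Chow motives, with `R` periodic cyclic homology (in
characteristic zero) or `TP(-)[1/p]` of the base change to the perfect closure (in characteristic `p`).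

* `R.CPlus M`: the noncommutative sign conjecture `C⁺` for `M`, that is, the projector to the even part of the
  realisation of `M` is the realisation of an endomorphism of `M`.
* `HomNil R M`: the endomorphisms of `M` with realisation zero are nilpotent.

**Theorem.**

1. All objects of `C` are Kimura-finite if and only if all satisfy `C⁺` and all endomorphisms with realisation zero are
   nilpotent.
2. Let `C'` be the category with the same objects and coefficients in the field `ℚ(t)` of rational functions (or the
   pseudo-abelian envelope of it, or any category with an extension of coefficients `Φ : C ⥤ C'`), for example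
   `NChow(k)_{ℚ(t)}`, and let `G` be a `ℚ(t)`-linear functor on `C'` which kills `Φ(f)` if `R` kills `f`, for example
   periodic cyclic homology `G = HP ⊗_k k(t)`. If `G` is conservative (reflects isomorphisms), then each object of `C`
   is Kimura-finite if and only if it satisfies `C⁺`. In particular all objects of `C` are then Kimura-finite if and
   only if all satisfy `C⁺`.

So the question Q1 has the answer yes if the noncommutative sign conjecture holds and if a morphism of noncommutative
Chow motives with coefficients `ℚ(t)` which induces an isomorphism in periodic cyclic homology is an isomorphism; no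
nilpotence has to be assumed. With conservativity, the Kimura-finiteness of a single `U(A)` is a question on the
projector to the even part of its periodic cyclic homology.

Part 2 uses the argument of helper911 with coefficients `F(t)` (`MP_c42eb9_ag.RationalFunctionCoefficients`): if `f` is
killed by the realisation then `1 - t f` is invertible over `ℚ(t)`, and this makes `f` algebraic over `ℚ` and nilpotent.
The lifting of the sign projector and the properties of Kimura-finite objects are from the files of helper905 for
`MP_868bb7_ag.TensorDivision`; here the exterior (symmetric) power of degree `dim R(X) + 1` of an even (odd) object `X`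
has trace zero and realisation of pure parity, so its realisation and hence the power itself vanishes.
-/

set_option autoImplicit false

open CategoryTheory Limits MonoidalCategory

namespace Pool.Agent.Results.MP_6e5bed_ag.SignAndConservativity

open Pool.Agent.Y112.SR Pool.Agent.Y112.KD Pool.Agent.R905 Pool.Agent.R936.Nck Pool.Agent.R911.Cv

universe v u w v' u'

/-- **Kimura-finiteness is equivalent to the sign conjecture together with nilpotence; it is equivalent to the sign
conjecture alone if the realisation with coefficients `ℚ(t)` is conservative.** -/
theorem result {C : Type u} [Category.{v} C] [Preadditive C] [Linear ℚ C] [MonoidalCategory C]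
    [MonoidalPreadditive C] [MonoidalLinear ℚ C] [SymmetricCategory C] [RightRigidCategory C]
    [IsIdempotentComplete C] (hU : UnitQ C) {K : Type w} [Field K] (R : SuperRealisation C K) :
    ((∀ M : C, IsKimuraFinite M) ↔ (∀ M : C, R.CPlus M) ∧ ∀ M : C, HomNil R M) ∧
    (∀ (C' : Type u') [Category.{v'} C'] [Preadditive C'] [Linear (RatFunc ℚ) C'] (Φ : C ⥤ C'),
      IsCoefficientExtension ℚ Φ →
      ∀ (D : Type u') [Category.{v'} D] [Preadditive D] [Linear (RatFunc ℚ) D] (G : C' ⥤ D)
        [G.Additive] [G.Linear (RatFunc ℚ)] [G.ReflectsIsomorphisms],
        (∀ (M : C) (f : M ⟶ M), R.H.map f = 0 → G.map (Φ.map f) = 0) →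
        ∀ M : C, IsKimuraFinite M ↔ R.CPlus M) := by
  refine ⟨⟨fun h => ⟨fun M => (h M).cplus R, fun M => (h M).homNil R hU⟩,
    fun h M => isKimuraFinite_of_nil R hU h.2 (h.1 M)⟩, ?_⟩
  intro C' _ _ _ Φ hΦ D _ _ _ G _ _ _ hG M
  have hnil : ∀ M : C, HomNil R M := fun M f hf =>
    isNilpotent_of_reflects hΦ (fun _ : Unit => G)
      (fun A B g hg => by
        have := hg ()
        exact isIso_of_reflects_iso g G) f fun _ => hG M f hf
  exact ⟨fun h => h.cplus R, fun h => isKimuraFinite_of_nil R hU hnil h⟩

end Pool.Agent.Results.MP_6e5bed_ag.SignAndConservativity
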