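import Pool.Agent.R905.Div

/-!
# MP_6e5bed_ag: Kimura-finiteness of noncommutative motives descends from tensor products to their factors

`C` is a `ℚ`-linear pseudo-abelian rigid symmetric tensor category with `End(𝟙) = ℚ`, and `R` is a symmetric monoidal
additive functor from `C` to finite dimensional super vector spaces over a field (`SuperRealisation`); no exactness,
faithfulness or further property of `R` is assumed. The example for the problem is the category `NChow(k)_ℚ` of
noncommutative Chow motives: the dual of `U(A)` is `U(A^op)`, `End(𝟙) = K_0(k)_ℚ = ℚ`, and `R` is periodic cyclic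
homology for `k` of characteristic zero, and `TP(-)[1/p]` of the base change to the perfect closure of `k` in
characteristic `p` (these functors are symmetric monoidal on smooth proper dg categories).

**Theorem.** Let `M_1`, ..., `M_n` be noncommutative motives with nonzero realisation. If `M_1 ⊗ ⋯ ⊗ M_n` is a direct
summand of a Kimura-finite object `P`, then all `M_i` are Kimura-finite.

So for smooth proper dg categories `A`, `B` with nonzero periodic cyclic homology `U(A ⊗ B)` is Kimura-finite if and
only if `U(A)` and `U(B)` are (one direction is a theorem of Kimura), even if it is only a direct summand of a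
Kimura-finite noncommutative motive. Examples:

* `U(A)` is Kimura-finite if (and only if) one of the powers `U(A ⊗ ⋯ ⊗ A)` is;
* for a finite separable extension `L` of `k`, `U(A)` is Kimura-finite if and only if `U(A ⊗_k L)` (as a `k`-linear dg
  category) is;
* if `A ⊗ B` has a full (or phantom-free semi-orthogonal) embedding into `perf(X)` with `h(X)` finite-dimensional, for
  instance `X` a product of curves or an abelian variety, then `U(A)` and `U(B)` are Kimura-finite, although nothing is
  assumed on `A` and `B` alone.

The case `n = 2` is the theorem of helper905 in `MP_868bb7_ag.TensorDivision` (formulated there for the Chow motives of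
varieties, but in any tensor category `C`), from which the general case is deduced by induction.
-/

set_option autoImplicit false
set_option linter.unusedSectionVars false

open CategoryTheory Limits MonoidalCategory

namespace Pool.Agent.Results.MP_6e5bed_ag.TensorFactors

open Pool.Agent.Y112.SR Pool.Agent.Y112.KD Pool.Agent.R905

universe v u w

section

variable {C : Type u} [Category.{v} C] [Preadditive C] [Linear ℚ C] [MonoidalCategory C]
  [MonoidalPreadditive C] [MonoidalLinear ℚ C] [SymmetricCategory C] [RightRigidCategory C]
  [IsIdempotentComplete C] {K : Type w} [Field K]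

/-- The tensor product of the objects in the list. -/
def prodObj : List C → C
  | [] => 𝟙_ C
  | M :: L => M ⊗ prodObj L

/-- The object `M` is a direct summand of `P`. -/
def IsSummand (M P : C) : Prop := ∃ (i : M ⟶ P) (r : P ⟶ M), i ≫ r = 𝟙 M

lemma not_isZero_unit (R : SuperRealisation C K) : ¬ IsZero (R.H.obj (𝟙_ C)) := by
  intro h
  have e : R.H.obj (𝟙_ C) ≅ 𝟙_ (ModuleCat K) := (Functor.Monoidal.εIso R.H).symm
  have h1 : IsZero (𝟙_ (ModuleCat K)) := h.of_iso e.symm
  have h2 : Subsingleton K := ModuleCat.subsingleton_of_isZero h1
  exact not_subsingleton K h2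

lemma not_isZero_tensor (R : SuperRealisation C K) {M N : C} (hM : ¬ IsZero (R.H.obj M))
    (hN : ¬ IsZero (R.H.obj N)) : ¬ IsZero (R.H.obj (M ⊗ N)) := by
  intro h
  have e : R.H.obj (M ⊗ N) ≅ R.H.obj M ⊗ R.H.obj N := (Functor.Monoidal.μIso R.H M N).symm
  have h1 : IsZero (R.H.obj M ⊗ R.H.obj N) := h.of_iso e.symm
  have h2 : Subsingleton (R.H.obj M ⊗ R.H.obj N : ModuleCat K) := ModuleCat.subsingleton_of_isZero h1
  have h3 : Module.finrank K (TensorProduct K (R.H.obj M) (R.H.obj N)) = 0 :=
    @Module.finrank_zero_of_subsingleton K _ _ _ _ _ h2
  rw [Module.finrank_tensorProduct, mul_eq_zero] at h3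
  rcases h3 with h3 | h3
  · exact finrank_ne_zero R hM h3
  · exact finrank_ne_zero R hN h3

lemma not_isZero_prodObj (R : SuperRealisation C K) (L : List C)
    (hL : ∀ M ∈ L, ¬ IsZero (R.H.obj M)) : ¬ IsZero (R.H.obj (prodObj L)) := by
  induction L with
  | nil => exact not_isZero_unit R
  | cons M L ih =>
    exact not_isZero_tensor R (hL M (List.mem_cons_self ..))
      (ih fun N hN => hL N (List.mem_cons_of_mem _ hN))

end

/-- **If a tensor product of noncommutative motives with nonzero realisations is a direct summand of a Kimura-finite
one, then all factors are Kimura-finite.** -/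
theorem result {C : Type u} [Category.{v} C] [Preadditive C] [Linear ℚ C] [MonoidalCategory C]
    [MonoidalPreadditive C] [MonoidalLinear ℚ C] [SymmetricCategory C] [RightRigidCategory C]
    [IsIdempotentComplete C] (hU : UnitQ C) {K : Type w} [Field K] (R : SuperRealisation C K)
    (L : List C) (hL : ∀ M ∈ L, ¬ IsZero (R.H.obj M)) (P : C) (hP : IsKimuraFinite P)
    (h : IsSummand (prodObj L) P) : ∀ M ∈ L, IsKimuraFinite M := by
  obtain ⟨i, r, hir⟩ := h
  have h1 : IsKimuraFinite (prodObj L) := hP.retract R hU i r hir
  clear hir i r hP
  induction L with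
  | nil => simp
  | cons M L ih =>
    have hM : ¬ IsZero (R.H.obj M) := hL M (List.mem_cons_self ..)
    have hL' : ∀ N ∈ L, ¬ IsZero (R.H.obj N) := fun N hN => hL N (List.mem_cons_of_mem _ hN)
    have hN := not_isZero_prodObj R L hL'
    have h2 : IsKimuraFinite (M ⊗ prodObj L) := h1
    have h3 : IsKimuraFinite (prodObj L ⊗ M) :=
      h2.retract R hU (β_ (prodObj L) M).hom (β_ (prodObj L) M).inv (by simp)
    intro N hNL
    rcases List.mem_cons.1 hNL with rfl | h4
    · exact isKimuraFinite_left R hU hM hN h2
    · exact ih hL' (isKimuraFinite_left R hU hN hM h3) N h4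

end Pool.Agent.Results.MP_6e5bed_ag.TensorFactors
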